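import Mathlib

set_option autoImplicit false

/-!
Counting lemmas: zeros of quadratic equations in boxes of natural numbers.
-/

namespace Pool.Agent.N394.RL

open Finset

/-- A nonconstant polynomial of degree at most two has at most two zeros. -/
theorem quad_fiber {α β γ : ℂ} (h : α ≠ 0 ∨ β ≠ 0) (T : Finset ℕ)
    (hT : ∀ t ∈ T, α * (t : ℂ) ^ 2 + β * t + γ = 0) : T.card ≤ 2 := by
  by_contra hcon
  push Not at hcon
  obtain ⟨a, b, c, ha, hb, hc, hab, hac, hbc⟩ := Finset.two_lt_card_iff.1 hcon
  have e1 := hT a ha
  have e2 := hT b hb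
  have e3 := hT c hc
  have hab' : (a : ℂ) - b ≠ 0 := sub_ne_zero.2 (by exact_mod_cast hab)
  have hac' : (a : ℂ) - c ≠ 0 := sub_ne_zero.2 (by exact_mod_cast hac)
  have hbc' : (b : ℂ) - c ≠ 0 := sub_ne_zero.2 (by exact_mod_cast hbc)
  have f1 : α * ((a : ℂ) + b) + β = 0 := by
    apply mul_left_cancel₀ hab'
    linear_combination e1 - e2
  have f2 : α * ((a : ℂ) + c) + β = 0 := by
    apply mul_left_cancel₀ hac'
    linear_combination e1 - e3
  have f3 : α = 0 := by
    apply mul_left_cancel₀ hbc'
    linear_combination f1 - f2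
  rcases h with h | h
  · exact h f3
  · apply h
    rw [f3] at f1
    linear_combination f1

/-- Zeros of a nonconstant polynomial of degree at most two in two variables, in a box. -/
theorem quad_box {A B C D E F : ℂ} (h : A ≠ 0 ∨ B ≠ 0 ∨ C ≠ 0 ∨ D ≠ 0 ∨ E ≠ 0) (N : ℕ)
    (S : Finset (ℕ × ℕ)) (hS : ∀ p ∈ S, p.1 < N ∧ p.2 < N)
    (hz : ∀ p ∈ S, A * (p.1 : ℂ) ^ 2 + B * p.1 * p.2 + C * (p.2 : ℂ) ^ 2 + D * p.1 + E * p.2
      + F = 0) : S.card ≤ 2 * N := by
  classical
  have m1 : ∀ p ∈ S, p.1 ∈ range N := fun p hp => mem_range.2 (hS p hp).1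
  have m2 : ∀ p ∈ S, p.2 ∈ range N := fun p hp => mem_range.2 (hS p hp).2
  -- fibres over the second coordinate
  have key2 : ∀ U : Finset (ℕ × ℕ), U ⊆ S → (∀ p ∈ U, A ≠ 0 ∨ B * (p.2 : ℂ) + D ≠ 0) →
      U.card ≤ 2 * N := by
    intro U hU hne
    have := Finset.card_le_mul_card_image_of_maps_to (s := U) (t := range N)
      (f := Prod.snd) (fun p hp => m2 p (hU hp)) 2 (by
        intro y _
        have hinj : Set.InjOn Prod.fst ((U.filter fun p => p.2 = y : Finset (ℕ × ℕ)) :
            Set (ℕ × ℕ)) := by
          intro p hp q hq hpq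
          simp only [coe_filter, Set.mem_ofPred_eq] at hp hq
          exact Prod.ext hpq (hp.2.trans hq.2.symm)
        rw [← Finset.card_image_of_injOn hinj]
        by_cases hemp : (U.filter fun p => p.2 = y) = ∅
        · rw [hemp]; simp
        obtain ⟨p0, hp0⟩ := Finset.nonempty_iff_ne_empty.2 hemp
        rw [mem_filter] at hp0
        have hne0 := hne p0 hp0.1
        rw [hp0.2] at hne0
        refine quad_fiber (α := A) (β := B * (y : ℂ) + D) (γ := C * (y : ℂ) ^ 2 + E * y + F) hne0 _ ?_
        intro t ht
        obtain ⟨p, hp, rfl⟩ := mem_image.1 ht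
        rw [mem_filter] at hp
        have := hz p (hU hp.1)
        rw [hp.2] at this
        linear_combination this)
    simpa using this
  have key1 : ∀ U : Finset (ℕ × ℕ), U ⊆ S → (∀ p ∈ U, C ≠ 0 ∨ B * (p.1 : ℂ) + E ≠ 0) →
      U.card ≤ 2 * N := by
    intro U hU hne
    have := Finset.card_le_mul_card_image_of_maps_to (s := U) (t := range N)
      (f := Prod.fst) (fun p hp => m1 p (hU hp)) 2 (by
        intro x _
        have hinj : Set.InjOn Prod.snd ((U.filter fun p => p.1 = x : Finset (ℕ × ℕ)) :
            Set (ℕ × ℕ)) := by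
          intro p hp q hq hpq
          simp only [coe_filter, Set.mem_ofPred_eq] at hp hq
          exact Prod.ext (hp.2.trans hq.2.symm) hpq
        rw [← Finset.card_image_of_injOn hinj]
        by_cases hemp : (U.filter fun p => p.1 = x) = ∅
        · rw [hemp]; simp
        obtain ⟨p0, hp0⟩ := Finset.nonempty_iff_ne_empty.2 hemp
        rw [mem_filter] at hp0
        have hne0 := hne p0 hp0.1
        rw [hp0.2] at hne0
        refine quad_fiber (α := C) (β := B * (x : ℂ) + E) (γ := A * (x : ℂ) ^ 2 + D * x + F) hne0 _ ?_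
        intro t ht
        obtain ⟨p, hp, rfl⟩ := mem_image.1 ht
        rw [mem_filter] at hp
        have := hz p (hU hp.1)
        rw [hp.2] at this
        linear_combination this)
    simpa using this
  by_cases hA : A = 0
  swap
  · exact key2 S subset_rfl fun _ _ => Or.inl hA
  by_cases hC : C = 0
  swap
  · exact key1 S subset_rfl fun _ _ => Or.inl hC
  by_cases hB : B = 0
  · by_cases hD : D = 0
    · have hE : E ≠ 0 := by
        rcases h with h | h | h | h | h
        · exact absurd hA h
        · exact absurd hB h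
        · exact absurd hC h
        · exact absurd hD h
        · exact h
      refine key1 S subset_rfl fun _ _ => Or.inr ?_
      rw [hB]
      simpa using hE
    · refine key2 S subset_rfl fun _ _ => Or.inr ?_
      rw [hB]
      simpa using hD
  -- the polynomial is B x y + D x + E y + F
  · have hsplit : S.card = (S.filter fun p => B * (p.1 : ℂ) + E ≠ 0).card
        + (S.filter fun p => ¬ (B * (p.1 : ℂ) + E ≠ 0)).card :=
      (Finset.card_filter_add_card_filter_not _).symm
    have b1 : (S.filter fun p => B * (p.1 : ℂ) + E ≠ 0).card ≤ N := by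
      have : ((S.filter fun p => B * (p.1 : ℂ) + E ≠ 0).image Prod.fst).card ≤ N := by
        rw [← card_range N]
        apply card_le_card
        intro x hx
        obtain ⟨p, hp, rfl⟩ := mem_image.1 hx
        exact m1 p (mem_filter.1 hp).1
      rwa [Finset.card_image_of_injOn] at this
      intro p hp q hq hpq
      simp only [coe_filter, Set.mem_ofPred_eq] at hp hq
      have e1 := hz p hp.1
      have e2 := hz q hq.1
      have hpq' : p.1 = q.1 := hpq
      rw [hA, hC] at e1 e2
      rw [← hpq'] at e2
      have : (p.2 : ℂ) = q.2 := by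
        apply mul_left_cancel₀ hp.2
        linear_combination e1 - e2
      exact Prod.ext hpq (by exact_mod_cast this)
    have b2 : (S.filter fun p => ¬ (B * (p.1 : ℂ) + E ≠ 0)).card ≤ N := by
      have : ((S.filter fun p => ¬ (B * (p.1 : ℂ) + E ≠ 0)).image Prod.snd).card ≤ N := by
        rw [← card_range N]
        apply card_le_card
        intro x hx
        obtain ⟨p, hp, rfl⟩ := mem_image.1 hx
        exact m2 p (mem_filter.1 hp).1
      rwa [Finset.card_image_of_injOn] at this
      intro p hp q hq hpq
      simp only [coe_filter, Set.mem_ofPred_eq, not_not] at hp hq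
      have : (p.1 : ℂ) = q.1 := by
        apply mul_left_cancel₀ hB
        linear_combination hp.2 - hq.2
      exact Prod.ext (by exact_mod_cast this) hpq
    omega

/-- Points of the box `[0,N)³` on the quadric section: a hyperplane section. -/
theorem hyper_count {a b c e f : ℂ} (h : a ≠ 0 ∨ b ≠ 0 ∨ c ≠ 0 ∨ e ≠ 0) (N : ℕ)
    (S : Finset (ℕ × ℕ × ℕ)) (hS : ∀ p ∈ S, p.1 < N ∧ p.2.1 < N ∧ p.2.2 < N)
    (hz : ∀ p ∈ S, a * (p.1 : ℂ) + b * p.2.1 + c * p.2.2 + e * ((p.2.1 : ℂ) ^ 2 - p.1 * p.2.2)
      = f) : S.card ≤ 2 * N ^ 2 := by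
  classical
  by_cases h1 : e ≠ 0 ∨ b ≠ 0
  · -- fibres over (x, z)
    have := Finset.card_le_mul_card_image_of_maps_to (s := S) (t := range N ×ˢ range N)
      (f := fun p => (p.1, p.2.2)) (fun p hp => mem_product.2 ⟨mem_range.2 (hS p hp).1,
        mem_range.2 (hS p hp).2.2⟩) 2 (by
        rintro ⟨x, z⟩ _
        have hinj : Set.InjOn (fun p : ℕ × ℕ × ℕ => p.2.1)
            ((S.filter fun p => (p.1, p.2.2) = (x, z) : Finset (ℕ × ℕ × ℕ)) :
            Set (ℕ × ℕ × ℕ)) := by
          intro p hp q hq hpq
          simp only [coe_filter, Set.mem_ofPred_eq, Prod.mk.injEq] at hp hq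
          exact Prod.ext (hp.2.1.trans hq.2.1.symm)
            (Prod.ext hpq (hp.2.2.trans hq.2.2.symm))
        rw [← Finset.card_image_of_injOn hinj]
        refine quad_fiber (α := e) (β := b) (γ := a * (x : ℂ) + c * z - e * x * z - f) h1 _ ?_
        intro t ht
        obtain ⟨p, hp, rfl⟩ := mem_image.1 ht
        simp only [mem_filter, Prod.mk.injEq] at hp
        have := hz p hp.1
        rw [hp.2.1, hp.2.2] at this
        linear_combination this)
    rw [card_product, card_range] at this
    calc S.card ≤ 2 * (N * N) := this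
      _ = 2 * N ^ 2 := by ring
  · push Not at h1
    obtain ⟨he, hb⟩ := h1
    subst he hb
    by_cases ha : a = 0
    · have hc : c ≠ 0 := by
        rcases h with h | h | h | h
        · exact absurd ha h
        · exact absurd rfl h
        · exact h
        · exact absurd rfl h
      have := Finset.card_le_mul_card_image_of_maps_to (s := S) (t := range N ×ˢ range N)
        (f := fun p => (p.1, p.2.1)) (fun p hp => mem_product.2 ⟨mem_range.2 (hS p hp).1,
          mem_range.2 (hS p hp).2.1⟩) 2 (by
          rintro ⟨x, y⟩ _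
          have hinj : Set.InjOn (fun p : ℕ × ℕ × ℕ => p.2.2)
              ((S.filter fun p => (p.1, p.2.1) = (x, y) : Finset (ℕ × ℕ × ℕ)) :
              Set (ℕ × ℕ × ℕ)) := by
            intro p hp q hq hpq
            simp only [coe_filter, Set.mem_ofPred_eq, Prod.mk.injEq] at hp hq
            exact Prod.ext (hp.2.1.trans hq.2.1.symm)
              (Prod.ext (hp.2.2.trans hq.2.2.symm) hpq)
          rw [← Finset.card_image_of_injOn hinj]
          refine quad_fiber (α := 0) (β := c) (γ := - f) (Or.inr hc) _ ?_
          intro t ht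
          obtain ⟨p, hp, rfl⟩ := mem_image.1 ht
          simp only [mem_filter, Prod.mk.injEq] at hp
          have := hz p hp.1
          rw [ha] at this
          linear_combination this)
      rw [card_product, card_range] at this
      calc S.card ≤ 2 * (N * N) := this
        _ = 2 * N ^ 2 := by ring
    · have := Finset.card_le_mul_card_image_of_maps_to (s := S) (t := range N ×ˢ range N)
        (f := fun p => (p.2.1, p.2.2)) (fun p hp => mem_product.2 ⟨mem_range.2 (hS p hp).2.1,
          mem_range.2 (hS p hp).2.2⟩) 2 (by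
          rintro ⟨y, z⟩ _
          have hinj : Set.InjOn (fun p : ℕ × ℕ × ℕ => p.1)
              ((S.filter fun p => (p.2.1, p.2.2) = (y, z) : Finset (ℕ × ℕ × ℕ)) :
              Set (ℕ × ℕ × ℕ)) := by
            intro p hp q hq hpq
            simp only [coe_filter, Set.mem_ofPred_eq, Prod.mk.injEq] at hp hq
            exact Prod.ext hpq
              (Prod.ext (hp.2.1.trans hq.2.1.symm) (hp.2.2.trans hq.2.2.symm))
          rw [← Finset.card_image_of_injOn hinj]
          refine quad_fiber (α := 0) (β := a) (γ := c * z - f) (Or.inr ha) _ ?_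
          intro t ht
          obtain ⟨p, hp, rfl⟩ := mem_image.1 ht
          simp only [mem_filter, Prod.mk.injEq] at hp
          have := hz p hp.1
          rw [hp.2.2] at this
          linear_combination this)
      rw [card_product, card_range] at this
      calc S.card ≤ 2 * (N * N) := this
        _ = 2 * N ^ 2 := by ring

/-- Points of the box on a two-dimensional flat section, the two linear equations in normal
form. -/
theorem flat_count {a b c f a' b' c' e' f' : ℂ} (h : a ≠ 0 ∨ b ≠ 0 ∨ c ≠ 0)
    (h' : (b ≠ 0 ∧ b' = 0 ∧ (a' ≠ 0 ∨ c' ≠ 0 ∨ e' ≠ 0)) ∨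
      (b = 0 ∧ a ≠ 0 ∧ a' = 0 ∧ (b' ≠ 0 ∨ c' ≠ 0 ∨ e' ≠ 0)) ∨
      (b = 0 ∧ a = 0 ∧ c' = 0 ∧ (a' ≠ 0 ∨ b' ≠ 0 ∨ e' ≠ 0))) (N : ℕ)
    (S : Finset (ℕ × ℕ × ℕ)) (hS : ∀ p ∈ S, p.1 < N ∧ p.2.1 < N ∧ p.2.2 < N)
    (hz : ∀ p ∈ S, a * (p.1 : ℂ) + b * p.2.1 + c * p.2.2 = f)
    (hz' : ∀ p ∈ S, a' * (p.1 : ℂ) + b' * p.2.1 + c' * p.2.2
      + e' * ((p.2.1 : ℂ) ^ 2 - p.1 * p.2.2) = f') : S.card ≤ 2 * N := by
  classical
  rcases h' with ⟨hb, hb', hne⟩ | ⟨hb, ha, ha', hne⟩ | ⟨hb, ha, hc', hne⟩
  · -- y = (f - a x - c z) / b
    have hinj : Set.InjOn (fun p : ℕ × ℕ × ℕ => (p.1, p.2.2)) (S : Set (ℕ × ℕ × ℕ)) := by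
      intro p hp q hq hpq
      simp only [Prod.mk.injEq] at hpq
      have e1 := hz p hp
      have e2 := hz q hq
      have : (p.2.1 : ℂ) = q.2.1 := by
        apply mul_left_cancel₀ hb
        rw [hpq.1, hpq.2] at e1
        linear_combination e1 - e2
      exact Prod.ext hpq.1 (Prod.ext (by exact_mod_cast this) hpq.2)
    rw [← Finset.card_image_of_injOn hinj]
    refine quad_box (A := e' * (a / b) ^ 2) (B := e' * (2 * (a / b) * (c / b) - 1))
      (C := e' * (c / b) ^ 2) (D := a' - 2 * e' * (f / b) * (a / b))
      (E := c' - 2 * e' * (f / b) * (c / b)) (F := e' * (f / b) ^ 2 - f') ?_ N _ ?_ ?_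
    · by_cases he : e' = 0
      · subst he
        rcases hne with h1 | h1 | h1
        · right; right; right; left; simpa using h1
        · right; right; right; right; simpa using h1
        · exact absurd rfl h1
      · by_cases hA : e' * (a / b) ^ 2 = 0
        · right; left
          have : a / b = 0 := by
            have := (mul_eq_zero.1 hA).resolve_left he
            exact pow_eq_zero_iff (two_ne_zero) |>.1 this
          rw [this]
          simpa using he
        · exact Or.inl hA
    · intro q hq
      obtain ⟨p, hp, rfl⟩ := mem_image.1 hq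
      exact ⟨(hS p hp).1, (hS p hp).2.2⟩
    · intro q hq
      obtain ⟨p, hp, rfl⟩ := mem_image.1 hq
      have e1 := hz p hp
      have e2 := hz' p hp
      have hy : (p.2.1 : ℂ) = f / b - (a / b) * p.1 - (c / b) * p.2.2 := by
        field_simp
        linear_combination e1
      rw [hy, hb'] at e2
      simp only
      linear_combination e2
  · -- b = 0, x = (f - c z) / a
    subst hb ha'
    have hinj : Set.InjOn (fun p : ℕ × ℕ × ℕ => (p.2.1, p.2.2)) (S : Set (ℕ × ℕ × ℕ)) := by
      intro p hp q hq hpq
      simp only [Prod.mk.injEq] at hpq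
      have e1 := hz p hp
      have e2 := hz q hq
      have : (p.1 : ℂ) = q.1 := by
        apply mul_left_cancel₀ ha
        rw [hpq.2] at e1
        linear_combination e1 - e2
      exact Prod.ext (by exact_mod_cast this) (Prod.ext hpq.1 hpq.2)
    rw [← Finset.card_image_of_injOn hinj]
    refine quad_box (A := e') (B := 0)
      (C := e' * (c / a)) (D := b')
      (E := c' - e' * (f / a)) (F := - f') ?_ N _ ?_ ?_
    · by_cases he : e' = 0
      · subst he
        rcases hne with h1 | h1 | h1
        · right; right; right; left; exact h1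
        · right; right; right; right; simpa using h1
        · exact absurd rfl h1
      · exact Or.inl he
    · intro q hq
      obtain ⟨p, hp, rfl⟩ := mem_image.1 hq
      exact ⟨(hS p hp).2.1, (hS p hp).2.2⟩
    · intro q hq
      obtain ⟨p, hp, rfl⟩ := mem_image.1 hq
      have e1 := hz p hp
      have e2 := hz' p hp
      have hx : (p.1 : ℂ) = f / a - (c / a) * p.2.2 := by
        field_simp
        linear_combination e1
      rw [hx] at e2
      simp only
      linear_combination e2
  · -- a = b = 0, z = f / c
    subst hb ha hc'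
    have hc : c ≠ 0 := by simpa using h
    have hinj : Set.InjOn (fun p : ℕ × ℕ × ℕ => (p.1, p.2.1)) (S : Set (ℕ × ℕ × ℕ)) := by
      intro p hp q hq hpq
      simp only [Prod.mk.injEq] at hpq
      have e1 := hz p hp
      have e2 := hz q hq
      have : (p.2.2 : ℂ) = q.2.2 := by
        apply mul_left_cancel₀ hc
        linear_combination e1 - e2
      exact Prod.ext hpq.1 (Prod.ext hpq.2 (by exact_mod_cast this))
    rw [← Finset.card_image_of_injOn hinj]
    refine quad_box (A := 0) (B := 0)
      (C := e') (D := a' - e' * (f / c))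
      (E := b') (F := - f') ?_ N _ ?_ ?_
    · by_cases he : e' = 0
      · subst he
        rcases hne with h1 | h1 | h1
        · right; right; right; left; simpa using h1
        · right; right; right; right; exact h1
        · exact absurd rfl h1
      · right; right; left; exact he
    · intro q hq
      obtain ⟨p, hp, rfl⟩ := mem_image.1 hq
      exact ⟨(hS p hp).1, (hS p hp).2.1⟩
    · intro q hq
      obtain ⟨p, hp, rfl⟩ := mem_image.1 hq
      have e1 := hz p hp
      have e2 := hz' p hp
      have hx : (p.2.2 : ℂ) = f / c := by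
        field_simp
        linear_combination e1
      rw [hx] at e2
      simp only
      linear_combination e2

end Pool.Agent.N394.RL
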