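import Mathlib

set_option autoImplicit false

/-!
Definitions for the conjectured bound on the number of `r`-rich lines of a finite set of `ℂ^d`.
-/

namespace Pool.Agent.N394.RL

/-- The number of points of `V` in the flat `F`. -/
noncomputable def pointsIn {d : ℕ} (V : Finset (Fin d → ℂ))
    (F : AffineSubspace ℂ (Fin d → ℂ)) : ℕ :=
  {v | v ∈ V ∧ v ∈ F}.ncard

/-- The `r`-rich lines: the complex lines (nonempty affine subspaces of dimension 1) that contain
at least `r` points of `V`. -/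
def richLines {d : ℕ} (V : Finset (Fin d → ℂ)) (r : ℕ) : Set (AffineSubspace ℂ (Fin d → ℂ)) :=
  {L | (L : Set (Fin d → ℂ)).Nonempty ∧ Module.finrank ℂ L.direction = 1 ∧ r ≤ pointsIn V L}

/-- `s_ℓ(V)`: the largest number of points of `V` in a flat of dimension `ℓ`. -/
noncomputable def maxInFlat {d : ℕ} (V : Finset (Fin d → ℂ)) (l : ℕ) : ℕ :=
  sSup {k | ∃ F : AffineSubspace ℂ (Fin d → ℂ), (F : Set (Fin d → ℂ)).Nonempty ∧
    Module.finrank ℂ F.direction = l ∧ k = pointsIn V F}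

/-- The bracket `n² / r^(d+1) + ∑_{ℓ=2}^{d-1} n s_ℓ / r^(ℓ+1) + n / r` of the conjectured bound,
`n = |V|`. -/
noncomputable def bracket {d : ℕ} (V : Finset (Fin d → ℂ)) (r : ℕ) : ℝ :=
  (V.card : ℝ) ^ 2 / (r : ℝ) ^ (d + 1) +
    ∑ l ∈ Finset.Icc 2 (d - 1), (V.card : ℝ) * (maxInFlat V l : ℝ) / (r : ℝ) ^ (l + 1) +
    (V.card : ℝ) / (r : ℝ)

end Pool.Agent.N394.RL
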