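import Mathlib
import Pool.Agent.N394.RL.Count

set_option autoImplicit false

/-!
The points `(x, y, z, y² - x z)` of a quadric and their flat sections.
-/

namespace Pool.Agent.N394.RL

open Finset Module

/-- the coordinates of the point of the quadric over `(x, y, z)`. -/
def q4 (x y z : ℂ) : ℕ → ℂ
  | 0 => x
  | 1 => y
  | 2 => z
  | 3 => y ^ 2 - x * z
  | _ => 0

variable {d : ℕ}

/-- the point of the quadric over `(x, y, z)`. -/
def g (d : ℕ) (x y z : ℂ) : Fin d → ℂ := fun i => q4 x y z i.val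

/-- the point of the quadric over a triple of natural numbers. -/
def gn (d : ℕ) (p : ℕ × ℕ × ℕ) : Fin d → ℂ := g d p.1 p.2.1 p.2.2

/-- the first four coordinates -/
noncomputable def proj (hd : 4 ≤ d) : (Fin d → ℂ) →ₗ[ℂ] (Fin 4 → ℂ) :=
  LinearMap.funLeft ℂ ℂ (Fin.castLE hd)

theorem proj_g (hd : 4 ≤ d) (x y z : ℂ) : proj hd (g d x y z) = ![x, y, z, y ^ 2 - x * z] := by
  funext i
  fin_cases i <;> simp [proj, g, q4, LinearMap.funLeft_apply]

theorem gn_inj (hd : 4 ≤ d) : Function.Injective (gn d) := by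
  rintro ⟨x, y, z⟩ ⟨x', y', z'⟩ h
  have h1 : proj hd (g d x y z) = proj hd (g d x' y' z') := congrArg (proj hd) h
  rw [proj_g, proj_g] at h1
  have e0 := congrFun h1 0
  have e1 := congrFun h1 1
  have e2 := congrFun h1 2
  simp at e0 e1 e2
  rw [e0, e1, e2]

/-- A proper subspace of `ℂ⁴` is in the kernel of a nonzero linear form, in coordinates. -/
theorem exists_form (W : Submodule ℂ (Fin 4 → ℂ)) (hW : finrank ℂ W < 4) :
    ∃ a b c e : ℂ, (a ≠ 0 ∨ b ≠ 0 ∨ c ≠ 0 ∨ e ≠ 0) ∧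
      ∀ w ∈ W, a * w 0 + b * w 1 + c * w 2 + e * w 3 = 0 := by
  have hlt : W < ⊤ := by
    refine lt_top_iff_ne_top.2 ?_
    rintro rfl
    rw [finrank_top] at hW
    simp at hW
  obtain ⟨φ, hφ, hW'⟩ := Submodule.exists_le_ker_of_lt_top W hlt
  have hrep : ∀ w : Fin 4 → ℂ, φ w = φ (Pi.single 0 1) * w 0 + φ (Pi.single 1 1) * w 1
      + φ (Pi.single 2 1) * w 2 + φ (Pi.single 3 1) * w 3 := by
    intro w
    have hw : w = w 0 • (Pi.single 0 1 : Fin 4 → ℂ) + w 1 • (Pi.single 1 1 : Fin 4 → ℂ)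
        + w 2 • (Pi.single 2 1 : Fin 4 → ℂ) + w 3 • (Pi.single 3 1 : Fin 4 → ℂ) := by
      funext i
      fin_cases i <;> simp
    conv_lhs => rw [hw]
    simp only [map_add, map_smul, smul_eq_mul]
    ring
  refine ⟨φ (Pi.single 0 1), φ (Pi.single 1 1), φ (Pi.single 2 1), φ (Pi.single 3 1), ?_, ?_⟩
  · by_contra hcon
    push Not at hcon
    apply hφ
    ext w
    have h := hrep
    simp only [hcon.1, hcon.2.1, hcon.2.2.1, hcon.2.2.2, zero_mul, add_zero] at h
    simp [h]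
  · intro w hw
    rw [← hrep]
    exact hW' hw

/-- the direction of a flat, in the first four coordinates -/
theorem finrank_map_proj (hd : 4 ≤ d) (U : Submodule ℂ (Fin d → ℂ)) :
    finrank ℂ (U.map (proj hd)) ≤ finrank ℂ U := Submodule.finrank_map_le _ _

theorem finrank_sup_span_le (W : Submodule ℂ (Fin 4 → ℂ)) (u : Fin 4 → ℂ) :
    finrank ℂ ↥(W ⊔ Submodule.span ℂ {u}) ≤ finrank ℂ W + 1 := by
  have h1 := Submodule.finrank_sup_add_finrank_inf_eq W (Submodule.span ℂ {u})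
  have h2 : finrank ℂ (Submodule.span ℂ ({u} : Set (Fin 4 → ℂ))) ≤ 1 := by
    have := finrank_span_le_card (R := ℂ) ({u} : Set (Fin 4 → ℂ))
    simpa using this
  omega

/-- Points of the box over which the quadric is in the flat `F`. -/
noncomputable def inFlat (d N : ℕ) (F : AffineSubspace ℂ (Fin d → ℂ)) : Finset (ℕ × ℕ × ℕ) := by
  classical
  exact (range N ×ˢ range N ×ˢ range N).filter fun p => gn d p ∈ F

theorem mem_inFlat {N : ℕ} {F : AffineSubspace ℂ (Fin d → ℂ)} {p : ℕ × ℕ × ℕ} :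
    p ∈ inFlat d N F ↔ (p.1 < N ∧ p.2.1 < N ∧ p.2.2 < N) ∧ gn d p ∈ F := by
  classical
  unfold inFlat
  simp only [mem_filter, mem_product, mem_range]

theorem inFlat_box {N : ℕ} {F : AffineSubspace ℂ (Fin d → ℂ)} :
    ∀ p ∈ inFlat d N F, p.1 < N ∧ p.2.1 < N ∧ p.2.2 < N := fun _ hp => (mem_inFlat.1 hp).1

theorem form_const (hd : 4 ≤ d) {N : ℕ} {F : AffineSubspace ℂ (Fin d → ℂ)} {a b c e : ℂ}
    (h : ∀ w ∈ F.direction.map (proj hd), a * w 0 + b * w 1 + c * w 2 + e * w 3 = 0) :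
    ∃ f : ℂ, ∀ p ∈ inFlat d N F, a * (p.1 : ℂ) + b * p.2.1 + c * p.2.2
      + e * ((p.2.1 : ℂ) ^ 2 - p.1 * p.2.2) = f := by
  by_cases hemp : inFlat d N F = ∅
  · refine ⟨0, ?_⟩
    rw [hemp]
    simp
  obtain ⟨p0, hp0⟩ := Finset.nonempty_iff_ne_empty.2 hemp
  refine ⟨a * (p0.1 : ℂ) + b * p0.2.1 + c * p0.2.2
      + e * ((p0.2.1 : ℂ) ^ 2 - p0.1 * p0.2.2), ?_⟩
  intro p hp
  have h1 : gn d p - gn d p0 ∈ F.direction :=
    AffineSubspace.vsub_mem_direction (mem_inFlat.1 hp).2 (mem_inFlat.1 hp0).2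
  have h2 := h _ (Submodule.mem_map_of_mem h1)
  rw [map_sub] at h2
  unfold gn at h2
  rw [proj_g, proj_g] at h2
  simp at h2
  linear_combination h2

/-- a flat of dimension at most three contains at most `2 N²` of the points -/
theorem inFlat_three (hd : 4 ≤ d) (N : ℕ) (F : AffineSubspace ℂ (Fin d → ℂ))
    (hF : finrank ℂ F.direction ≤ 3) : (inFlat d N F).card ≤ 2 * N ^ 2 := by
  obtain ⟨a, b, c, e, hne, h⟩ := exists_form (F.direction.map (proj hd))
    (lt_of_le_of_lt (finrank_map_proj hd _) (by omega))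
  obtain ⟨f, hf⟩ := form_const (N := N) hd h
  exact hyper_count hne N _ inFlat_box hf

/-- a flat of dimension at most two contains at most `2 N` of the points -/
theorem inFlat_two (hd : 4 ≤ d) (N : ℕ) (F : AffineSubspace ℂ (Fin d → ℂ))
    (hF : finrank ℂ F.direction ≤ 2) : (inFlat d N F).card ≤ 2 * N := by
  set W := F.direction.map (proj hd) with hWdef
  have hW : finrank ℂ W ≤ 2 := (finrank_map_proj hd _).trans hF
  obtain ⟨a, b, c, e, hne, h⟩ := exists_form (W ⊔ Submodule.span ℂ {Pi.single 3 1})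
    (lt_of_le_of_lt (finrank_sup_span_le _ _) (by omega))
  have he : e = 0 := by
    have := h (Pi.single 3 1) (Submodule.mem_sup_right (Submodule.mem_span_singleton_self _))
    simpa using this
  subst he
  have hne' : a ≠ 0 ∨ b ≠ 0 ∨ c ≠ 0 := by
    rcases hne with h | h | h | h
    · exact Or.inl h
    · exact Or.inr (Or.inl h)
    · exact Or.inr (Or.inr h)
    · exact absurd rfl h
  obtain ⟨f, hf⟩ := form_const (N := N) hd (fun w hw => h w (Submodule.mem_sup_left hw))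
  have hf1 : ∀ p ∈ inFlat d N F, a * (p.1 : ℂ) + b * p.2.1 + c * p.2.2 = f := by
    intro p hp
    have := hf p hp
    linear_combination this
  have key : ∀ j : Fin 4, ∃ a' b' c' e' : ℂ, (a' ≠ 0 ∨ b' ≠ 0 ∨ c' ≠ 0 ∨ e' ≠ 0) ∧
      (![a', b', c', e'] j = 0) ∧
      ∃ f' : ℂ, ∀ p ∈ inFlat d N F, a' * (p.1 : ℂ) + b' * p.2.1 + c' * p.2.2
        + e' * ((p.2.1 : ℂ) ^ 2 - p.1 * p.2.2) = f' := by
    intro j
    obtain ⟨a', b', c', e', hne2, h2⟩ := exists_form (W ⊔ Submodule.span ℂ {Pi.single j 1})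
      (lt_of_le_of_lt (finrank_sup_span_le _ _) (by omega))
    refine ⟨a', b', c', e', hne2, ?_, form_const (N := N) hd
      (fun w hw => h2 w (Submodule.mem_sup_left hw))⟩
    have := h2 (Pi.single j 1) (Submodule.mem_sup_right (Submodule.mem_span_singleton_self _))
    fin_cases j <;> simpa using this
  by_cases hb : b = 0
  · by_cases ha : a = 0
    · obtain ⟨a', b', c', e', hne2, hj, f', hf'⟩ := key 2
      have hj' : c' = 0 := by simpa using hj
      refine flat_count hne' (Or.inr (Or.inr ⟨hb, ha, hj', ?_⟩)) N _ inFlat_box hf1 hf'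
      rcases hne2 with h | h | h | h
      · exact Or.inl h
      · exact Or.inr (Or.inl h)
      · exact absurd hj' h
      · exact Or.inr (Or.inr h)
    · obtain ⟨a', b', c', e', hne2, hj, f', hf'⟩ := key 0
      have hj' : a' = 0 := by simpa using hj
      refine flat_count hne' (Or.inr (Or.inl ⟨hb, ha, hj', ?_⟩)) N _ inFlat_box hf1 hf'
      rcases hne2 with h | h | h | h
      · exact absurd hj' h
      · exact Or.inl h
      · exact Or.inr (Or.inl h)
      · exact Or.inr (Or.inr h)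
  · obtain ⟨a', b', c', e', hne2, hj, f', hf'⟩ := key 1
    have hj' : b' = 0 := by simpa using hj
    refine flat_count hne' (Or.inl ⟨hb, hj', ?_⟩) N _ inFlat_box hf1 hf'
    rcases hne2 with h | h | h | h
    · exact Or.inl h
    · exact absurd hj' h
    · exact Or.inr (Or.inl h)
    · exact Or.inr (Or.inr h)

/-- the isotropic line through the point over `(x, y, z)` in direction `(1, t, t²)`. -/
noncomputable def isoLine (d : ℕ) (t : ℕ) (p : ℕ × ℕ × ℕ) : AffineSubspace ℂ (Fin d → ℂ) :=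
  AffineSubspace.mk' (gn d p)
    (Submodule.span ℂ {gn d (p.1 + 1, p.2.1 + t, p.2.2 + t ^ 2) - gn d p})

theorem gn_step (d t k : ℕ) (p : ℕ × ℕ × ℕ) :
    gn d (p.1 + k, p.2.1 + k * t, p.2.2 + k * t ^ 2) - gn d p =
      (k : ℂ) • (gn d (p.1 + 1, p.2.1 + t, p.2.2 + t ^ 2) - gn d p) := by
  funext i
  simp only [gn, g, Pi.sub_apply, Pi.smul_apply, smul_eq_mul]
  generalize i.val = j
  match j with
  | 0 => simp [q4]
  | 1 => simp [q4]
  | 2 => simp [q4]
  | 3 =>
    simp only [q4]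
    push_cast
    ring
  | n + 4 => simp [q4]

theorem step_mem (d t k : ℕ) (p : ℕ × ℕ × ℕ) :
    gn d (p.1 + k, p.2.1 + k * t, p.2.2 + k * t ^ 2) ∈ isoLine d t p := by
  unfold isoLine
  rw [AffineSubspace.mem_mk', vsub_eq_sub, gn_step]
  exact Submodule.smul_mem _ _ (Submodule.mem_span_singleton_self _)

theorem isoLine_direction (hd : 4 ≤ d) (t : ℕ) (p : ℕ × ℕ × ℕ) :
    finrank ℂ (isoLine d t p).direction = 1 := by
  unfold isoLine
  rw [AffineSubspace.direction_mk']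
  apply finrank_span_singleton
  intro h
  have := gn_inj hd (sub_eq_zero.1 h)
  have := congrArg Prod.fst this
  simp at this

theorem mem_isoLine (hd : 4 ≤ d) {t : ℕ} {p q : ℕ × ℕ × ℕ} (h : gn d q ∈ isoLine d t p) :
    ∃ c : ℂ, (q.1 : ℂ) = p.1 + c ∧ (q.2.1 : ℂ) = p.2.1 + c * t ∧
      (q.2.2 : ℂ) = p.2.2 + c * (t : ℂ) ^ 2 := by
  unfold isoLine at h
  rw [AffineSubspace.mem_mk', vsub_eq_sub, Submodule.mem_span_singleton] at h
  obtain ⟨c, hc⟩ := h
  have h1 := congrArg (proj hd) hc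
  rw [map_smul, map_sub, map_sub] at h1
  unfold gn at h1
  rw [proj_g, proj_g, proj_g] at h1
  have e0 := congrFun h1 0
  have e1 := congrFun h1 1
  have e2 := congrFun h1 2
  simp at e0 e1 e2
  refine ⟨c, ?_, ?_, ?_⟩
  · linear_combination -e0
  · linear_combination -e1
  · linear_combination -e2

theorem isoLine_inj (hd : 4 ≤ d) {t t' : ℕ} {p p' : ℕ × ℕ × ℕ} (hz : p.2.2 < t ^ 2)
    (hz' : p'.2.2 < t' ^ 2) (h : isoLine d t p = isoLine d t' p') : t = t' ∧ p = p' := by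
  have h0 : gn d p' ∈ isoLine d t p := by
    have := step_mem d t' 0 p'
    simp only [add_zero, zero_mul] at this
    rw [h]
    exact this
  have h1 : gn d (p'.1 + 1, p'.2.1 + t', p'.2.2 + t' ^ 2) ∈ isoLine d t p := by
    have := step_mem d t' 1 p'
    simp only [one_mul] at this
    rw [h]
    exact this
  obtain ⟨c, c1, c2, c3⟩ := mem_isoLine hd h0
  obtain ⟨c', c1', c2', c3'⟩ := mem_isoLine hd h1
  simp only at c1' c2' c3'
  push_cast at c1' c2' c3'
  have hc : c' = c + 1 := by linear_combination c1 - c1'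
  have ht : (t : ℂ) = t' := by
    rw [hc] at c2'
    linear_combination c2 - c2'
  have ht' : t = t' := by exact_mod_cast ht
  subst ht'
  have hcz : c = ((p'.1 : ℤ) - (p.1 : ℤ) : ℤ) := by
    push_cast
    linear_combination -c1
  have c3z : (p'.2.2 : ℤ) = p.2.2 + ((p'.1 : ℤ) - (p.1 : ℤ)) * (t : ℤ) ^ 2 := by
    rw [hcz] at c3
    exact_mod_cast c3
  have c2z : (p'.2.1 : ℤ) = p.2.1 + ((p'.1 : ℤ) - (p.1 : ℤ)) * (t : ℤ) := by
    rw [hcz] at c2
    exact_mod_cast c2
  have hz1 : (p.2.2 : ℤ) < (t : ℤ) ^ 2 := by exact_mod_cast hz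
  have hz2 : (p'.2.2 : ℤ) < (t : ℤ) ^ 2 := by exact_mod_cast hz'
  have hx : (p'.1 : ℤ) - (p.1 : ℤ) = 0 := by
    by_contra hne
    rcases lt_or_gt_of_ne hne with hlt | hgt
    · have : ((p'.1 : ℤ) - (p.1 : ℤ)) * (t : ℤ) ^ 2 ≤ -1 * (t : ℤ) ^ 2 :=
        mul_le_mul_of_nonneg_right (by omega) (by positivity)
      have := Int.natCast_nonneg p'.2.2
      linarith
    · have : 1 * (t : ℤ) ^ 2 ≤ ((p'.1 : ℤ) - (p.1 : ℤ)) * (t : ℤ) ^ 2 :=
        mul_le_mul_of_nonneg_right (by omega) (by positivity)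
      have := Int.natCast_nonneg p.2.2
      linarith
  rw [hx, zero_mul, add_zero] at c2z c3z
  refine ⟨rfl, ?_⟩
  have e1 : p.1 = p'.1 := by omega
  have e2 : p.2.1 = p'.2.1 := by exact_mod_cast c2z.symm
  have e3 : p.2.2 = p'.2.2 := by exact_mod_cast c3z.symm
  exact Prod.ext e1 (Prod.ext e2 e3)

end Pool.Agent.N394.RL
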