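import Mathlib
import Pool.Agent.N394.RL.Defs
import Pool.Agent.N394.RL.Geom

set_option autoImplicit false

/-!
The point sets `V` and the comparison of the number of rich lines with the bracket.
-/

namespace Pool.Agent.N394.RL

open Finset Module

variable {d : ℕ}

/-- the point set: the part of the quadric over the box `[0, N)³`. -/
noncomputable def VV (d N : ℕ) : Finset (Fin d → ℂ) := by
  classical
  exact (range N ×ˢ range N ×ˢ range N).image (gn d)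

theorem VV_card (hd : 4 ≤ d) (N : ℕ) : (VV d N).card = N ^ 3 := by
  classical
  unfold VV
  rw [Finset.card_image_of_injective _ (gn_inj hd), card_product, card_product, card_range]
  ring

theorem pointsIn_VV (hd : 4 ≤ d) (N : ℕ) (F : AffineSubspace ℂ (Fin d → ℂ)) :
    pointsIn (VV d N) F = (inFlat d N F).card := by
  classical
  unfold pointsIn
  have : {v | v ∈ VV d N ∧ v ∈ F} = (((inFlat d N F).image (gn d) : Finset (Fin d → ℂ)) :
      Set (Fin d → ℂ)) := by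
    ext v
    simp only [Set.mem_ofPred_eq, coe_image, Set.mem_image, mem_coe]
    constructor
    · rintro ⟨h1, h2⟩
      unfold VV at h1
      obtain ⟨p, hp, rfl⟩ := mem_image.1 h1
      refine ⟨p, mem_inFlat.2 ⟨?_, h2⟩, rfl⟩
      simpa only [mem_product, mem_range] using hp
    · rintro ⟨p, hp, rfl⟩
      obtain ⟨h1, h2⟩ := mem_inFlat.1 hp
      refine ⟨?_, h2⟩
      unfold VV
      refine mem_image_of_mem _ ?_
      simpa only [mem_product, mem_range] using h1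
  rw [this, Set.ncard_coe_finset, Finset.card_image_of_injective _ (gn_inj hd)]

theorem pointsIn_le (V : Finset (Fin d → ℂ)) (F : AffineSubspace ℂ (Fin d → ℂ)) :
    pointsIn V F ≤ V.card := by
  unfold pointsIn
  rw [← Set.ncard_coe_finset]
  exact Set.ncard_le_ncard (fun v hv => hv.1) (Finset.finite_toSet _)

theorem maxInFlat_le (V : Finset (Fin d → ℂ)) (l K : ℕ)
    (h : ∀ F : AffineSubspace ℂ (Fin d → ℂ), finrank ℂ F.direction = l → pointsIn V F ≤ K) :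
    maxInFlat V l ≤ K := by
  unfold maxInFlat
  by_cases hne : {k | ∃ F : AffineSubspace ℂ (Fin d → ℂ), (F : Set (Fin d → ℂ)).Nonempty ∧
    Module.finrank ℂ F.direction = l ∧ k = pointsIn V F}.Nonempty
  · refine csSup_le hne ?_
    rintro k ⟨F, -, hF, rfl⟩
    exact h F hF
  · rw [Set.not_nonempty_iff_eq_empty.1 hne]
    simp

/-- There are finitely many `r`-rich lines, `r ≥ 2`. -/
theorem richLines_finite (V : Finset (Fin d → ℂ)) {r : ℕ} (hr : 2 ≤ r) :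
    (richLines V r).Finite := by
  classical
  have hfin : ((fun p : (Fin d → ℂ) × (Fin d → ℂ) => (AffineSubspace.mk' p.1
      (Submodule.span ℂ {p.2 - p.1}) : AffineSubspace ℂ (Fin d → ℂ))) ''
      ((V ×ˢ V : Finset _) : Set ((Fin d → ℂ) × (Fin d → ℂ)))).Finite :=
    (Finset.finite_toSet _).image _
  refine hfin.subset ?_
  rintro L ⟨hne, hdim, hrich⟩
  have h2 : 1 < {v | v ∈ V ∧ v ∈ L}.ncard := by
    have : r ≤ {v | v ∈ V ∧ v ∈ L}.ncard := hrich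
    omega
  obtain ⟨p, q, hp, hq, hpq⟩ := (Set.one_lt_ncard_iff
    ((Finset.finite_toSet V).subset fun v hv => hv.1)).1 h2
  refine ⟨(p, q), ?_, ?_⟩
  · simp only [coe_product, Set.mem_prod, mem_coe]
    exact ⟨hp.1, hq.1⟩
  · have hdir : Submodule.span ℂ {q - p} = L.direction := by
      apply Submodule.eq_of_le_of_finrank_eq
      · rw [Submodule.span_singleton_le_iff_mem]
        exact AffineSubspace.vsub_mem_direction hq.2 hp.2
      · rw [hdim]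
        exact finrank_span_singleton (sub_ne_zero.2 (Ne.symm hpq))
    simp only
    rw [hdir]
    exact AffineSubspace.mk'_eq hp.2

/-- the index set of the rich lines -/
def idx (M T : ℕ) : Finset ((_ : ℕ) × (ℕ × ℕ × ℕ)) :=
  (Icc 1 T).sigma fun t => range M ×ˢ range M ×ˢ range (t ^ 2)

theorem idx_card (M T : ℕ) : T ^ 3 * M ^ 2 ≤ 3 * (idx M T).card := by
  unfold idx
  rw [card_sigma]
  simp only [card_product, card_range]
  induction T with
  | zero => simp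
  | succ T ih =>
    rw [Finset.sum_Icc_succ_top (by omega)]
    calc (T + 1) ^ 3 * M ^ 2 = T ^ 3 * M ^ 2 + (3 * T ^ 2 + 3 * T + 1) * M ^ 2 := by ring
      _ ≤ 3 * (∑ k ∈ Icc 1 T, M * (M * k ^ 2)) + (3 * T ^ 2 + 6 * T + 3) * M ^ 2 := by
        refine add_le_add ih (Nat.mul_le_mul_right _ ?_)
        omega
      _ = 3 * (∑ k ∈ Icc 1 T, M * (M * k ^ 2) + M * (M * (T + 1) ^ 2)) := by ring

theorem richLines_card (hd : 4 ≤ d) (T r : ℕ) (hr : 2 ≤ r) :
    T ^ 3 * (T ^ 2 * r) ^ 2 ≤ 3 * (richLines (VV d (2 * (T ^ 2 * r))) r).ncard := by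
  classical
  set M := T ^ 2 * r with hM
  refine (idx_card M T).trans (Nat.mul_le_mul_left _ ?_)
  rw [← Set.ncard_coe_finset]
  refine Set.ncard_le_ncard_of_injOn (fun i => isoLine d i.1 i.2) ?_ ?_ (richLines_finite _ hr)
  · rintro ⟨t, x, y, z⟩ hi
    rw [mem_coe] at hi
    unfold idx at hi
    simp only [mem_sigma, mem_Icc, mem_product, mem_range] at hi
    obtain ⟨⟨ht1, htT⟩, hx, hy, hz⟩ := hi
    have hle : r * t ^ 2 ≤ M := by
      rw [hM, mul_comm]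
      exact Nat.mul_le_mul_right _ (Nat.pow_le_pow_left htT 2)
    have ht2 : t ≤ t ^ 2 := by nlinarith
    have ht3 : 1 ≤ t ^ 2 := by nlinarith
    refine ⟨⟨_, AffineSubspace.self_mem_mk' _ _⟩, isoLine_direction hd _ _, ?_⟩
    rw [pointsIn_VV hd]
    have hcard : ((range r).image fun k => (x + k, y + k * t, z + k * t ^ 2)).card = r := by
      rw [Finset.card_image_of_injective, card_range]
      intro a b hab
      simp only [Prod.mk.injEq] at hab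
      omega
    refine hcard.symm.le.trans (card_le_card ?_)
    intro p hp
    obtain ⟨k, hk, rfl⟩ := mem_image.1 hp
    rw [mem_range] at hk
    refine mem_inFlat.2 ⟨?_, step_mem d t k (x, y, z)⟩
    have hk1 : (k + 1) * t ^ 2 ≤ r * t ^ 2 := Nat.mul_le_mul_right _ hk
    have hk2 : k * t ≤ k * t ^ 2 := Nat.mul_le_mul_left _ ht2
    have hk3 : k * 1 ≤ k * t ^ 2 := Nat.mul_le_mul_left _ ht3
    have hk4 : (k + 1) * t ^ 2 = k * t ^ 2 + t ^ 2 := by ring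
    simp only
    refine ⟨?_, ?_, ?_⟩ <;> omega
  · rintro ⟨t, p⟩ hi ⟨t', p'⟩ hi' h
    rw [mem_coe] at hi hi'
    unfold idx at hi hi'
    simp only [mem_sigma, mem_product, mem_range] at hi hi'
    obtain ⟨h1, h2⟩ := isoLine_inj hd hi.2.2.2 hi'.2.2.2 h
    subst h1
    rw [h2]

/-- The bracket for the point sets `VV d (2 T^8)` and `r = T^6`. -/
theorem bracket_le (hd : 4 ≤ d) (T : ℕ) (hT : 1 ≤ T) :
    bracket (VV d (2 * T ^ 8)) (T ^ 6) ≤ 64 * d * (T : ℝ) ^ 18 := by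
  have hT' : (1 : ℝ) ≤ T := by exact_mod_cast hT
  have hT0 : (0 : ℝ) < T := by linarith
  unfold bracket
  have hcard : (((VV d (2 * T ^ 8)).card : ℕ) : ℝ) = 8 * (T : ℝ) ^ 24 := by
    rw [VV_card hd]
    push_cast
    ring
  rw [hcard]
  have hrp : ∀ k : ℕ, ((T ^ 6 : ℕ) : ℝ) ^ k = (T : ℝ) ^ (6 * k) := by
    intro k
    push_cast
    rw [pow_mul]
  -- division by large powers
  have hdiv : ∀ (a : ℝ) (j k : ℕ), 0 ≤ a → j ≤ k + 18 →
      a * (T : ℝ) ^ j / (T : ℝ) ^ k ≤ a * (T : ℝ) ^ 18 := by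
    intro a j k ha hjk
    rw [div_le_iff₀ (pow_pos hT0 k), mul_assoc, ← pow_add]
    refine mul_le_mul_of_nonneg_left (pow_le_pow_right₀ hT' (by omega)) ha
  have t1 : (8 * (T : ℝ) ^ 24) ^ 2 / ((T ^ 6 : ℕ) : ℝ) ^ (d + 1) ≤ 64 * (T : ℝ) ^ 18 := by
    rw [hrp]
    have : (8 * (T : ℝ) ^ 24) ^ 2 = 64 * (T : ℝ) ^ 48 := by ring
    rw [this]
    exact hdiv 64 48 _ (by norm_num) (by omega)
  have t3 : 8 * (T : ℝ) ^ 24 / ((T ^ 6 : ℕ) : ℝ) ≤ 8 * (T : ℝ) ^ 18 := by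
    have := hrp 1
    rw [pow_one] at this
    rw [this]
    exact hdiv 8 24 _ (by norm_num) (by omega)
  have s2 : (maxInFlat (VV d (2 * T ^ 8)) 2 : ℝ) ≤ 4 * (T : ℝ) ^ 8 := by
    have : maxInFlat (VV d (2 * T ^ 8)) 2 ≤ 2 * (2 * T ^ 8) :=
      maxInFlat_le _ _ _ fun F hF => by
        rw [pointsIn_VV hd]
        exact inFlat_two hd _ F hF.le
    calc (maxInFlat (VV d (2 * T ^ 8)) 2 : ℝ) ≤ ((2 * (2 * T ^ 8) : ℕ) : ℝ) := by
          exact_mod_cast this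
      _ = 4 * (T : ℝ) ^ 8 := by push_cast; ring
  have s3 : (maxInFlat (VV d (2 * T ^ 8)) 3 : ℝ) ≤ 8 * (T : ℝ) ^ 16 := by
    have : maxInFlat (VV d (2 * T ^ 8)) 3 ≤ 2 * (2 * T ^ 8) ^ 2 :=
      maxInFlat_le _ _ _ fun F hF => by
        rw [pointsIn_VV hd]
        exact inFlat_three hd _ F hF.le
    calc (maxInFlat (VV d (2 * T ^ 8)) 3 : ℝ) ≤ ((2 * (2 * T ^ 8) ^ 2 : ℕ) : ℝ) := by
          exact_mod_cast this
      _ = 8 * (T : ℝ) ^ 16 := by push_cast; ring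
  have sl : ∀ l, (maxInFlat (VV d (2 * T ^ 8)) l : ℝ) ≤ 8 * (T : ℝ) ^ 24 := by
    intro l
    have : maxInFlat (VV d (2 * T ^ 8)) l ≤ (VV d (2 * T ^ 8)).card :=
      maxInFlat_le _ _ _ fun F _ => pointsIn_le _ F
    calc (maxInFlat (VV d (2 * T ^ 8)) l : ℝ) ≤ ((VV d (2 * T ^ 8)).card : ℝ) := by
          exact_mod_cast this
      _ = 8 * (T : ℝ) ^ 24 := hcard
  have hterm : ∀ l ∈ Icc 2 (d - 1), 8 * (T : ℝ) ^ 24 * (maxInFlat (VV d (2 * T ^ 8)) l : ℝ) /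
      ((T ^ 6 : ℕ) : ℝ) ^ (l + 1) ≤ 64 * (T : ℝ) ^ 18 := by
    intro l hl
    rw [mem_Icc] at hl
    rw [hrp]
    have hp : (0 : ℝ) < (T : ℝ) ^ (6 * (l + 1)) := pow_pos hT0 _
    rcases Nat.lt_or_ge l 3 with h | h
    · have hl2 : l = 2 := by omega
      subst hl2
      have : 8 * (T : ℝ) ^ 24 * (maxInFlat (VV d (2 * T ^ 8)) 2 : ℝ) ≤ 64 * (T : ℝ) ^ 32 := by
        calc 8 * (T : ℝ) ^ 24 * (maxInFlat (VV d (2 * T ^ 8)) 2 : ℝ)
            ≤ 8 * (T : ℝ) ^ 24 * (4 * (T : ℝ) ^ 8) :=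
              mul_le_mul_of_nonneg_left s2 (by positivity)
          _ = 32 * (T : ℝ) ^ 32 := by ring
          _ ≤ 64 * (T : ℝ) ^ 32 := by
              have : (0 : ℝ) ≤ (T : ℝ) ^ 32 := by positivity
              linarith
      exact (div_le_div_of_nonneg_right this hp.le).trans (hdiv 64 32 _ (by norm_num) (by omega))
    · rcases Nat.lt_or_ge l 4 with h4 | h4
      · have hl3 : l = 3 := by omega
        subst hl3
        have : 8 * (T : ℝ) ^ 24 * (maxInFlat (VV d (2 * T ^ 8)) 3 : ℝ) ≤ 64 * (T : ℝ) ^ 40 := by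
          calc 8 * (T : ℝ) ^ 24 * (maxInFlat (VV d (2 * T ^ 8)) 3 : ℝ)
              ≤ 8 * (T : ℝ) ^ 24 * (8 * (T : ℝ) ^ 16) :=
                mul_le_mul_of_nonneg_left s3 (by positivity)
            _ = 64 * (T : ℝ) ^ 40 := by ring
        exact (div_le_div_of_nonneg_right this hp.le).trans
          (hdiv 64 40 _ (by norm_num) (by omega))
      · have : 8 * (T : ℝ) ^ 24 * (maxInFlat (VV d (2 * T ^ 8)) l : ℝ) ≤ 64 * (T : ℝ) ^ 48 := by
          calc 8 * (T : ℝ) ^ 24 * (maxInFlat (VV d (2 * T ^ 8)) l : ℝ)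
              ≤ 8 * (T : ℝ) ^ 24 * (8 * (T : ℝ) ^ 24) :=
                mul_le_mul_of_nonneg_left (sl l) (by positivity)
            _ = 64 * (T : ℝ) ^ 48 := by ring
        exact (div_le_div_of_nonneg_right this hp.le).trans
          (hdiv 64 48 _ (by norm_num) (by omega))
  have hsum := Finset.sum_le_sum hterm
  rw [sum_const, nsmul_eq_mul, Nat.card_Icc] at hsum
  have hcd : ((d - 1 + 1 - 2 : ℕ) : ℝ) = (d : ℝ) - 2 := by
    have : d - 1 + 1 - 2 = d - 2 := by omega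
    rw [this, Nat.cast_sub (by omega)]
    norm_num
  rw [hcd] at hsum
  have hpos : (0 : ℝ) ≤ (T : ℝ) ^ 18 := by positivity
  nlinarith [hsum, t1, t3, hpos]

/-- Many rich lines. -/
theorem many_rich (hd : 4 ≤ d) (T : ℕ) (hT : 2 ≤ T) :
    (T : ℝ) ^ 19 ≤ 3 * ((richLines (VV d (2 * T ^ 8)) (T ^ 6)).ncard : ℝ) := by
  have hr : 2 ≤ T ^ 6 := by
    calc 2 ≤ 2 ^ 6 := by norm_num
      _ ≤ T ^ 6 := Nat.pow_le_pow_left hT 6
  have h := richLines_card hd T (T ^ 6) hr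
  have e1 : T ^ 2 * T ^ 6 = T ^ 8 := by ring
  rw [e1] at h
  have e2 : T ^ 3 * (T ^ 8) ^ 2 = T ^ 19 := by ring
  rw [e2] at h
  exact_mod_cast h

theorem VV_int (N : ℕ) : ∀ v ∈ VV d N, ∀ i, ∃ m : ℤ, v i = (m : ℂ) := by
  classical
  intro v hv i
  unfold VV at hv
  obtain ⟨⟨x, y, z⟩, -, rfl⟩ := mem_image.1 hv
  unfold gn g
  generalize i.val = j
  match j with
  | 0 => exact ⟨x, by simp [q4]⟩
  | 1 => exact ⟨y, by simp [q4]⟩
  | 2 => exact ⟨z, by simp [q4]⟩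
  | 3 => exact ⟨(y : ℤ) ^ 2 - x * z, by simp [q4]⟩
  | n + 4 => exact ⟨0, by simp [q4]⟩

/-- The bound fails by a power of the number of points. -/
theorem power (hd : 4 ≤ d) (N : ℕ) : ∃ (V : Finset (Fin d → ℂ)) (r : ℕ), N ≤ V.card ∧ 2 ≤ r ∧
    (∀ v ∈ V, ∀ i, ∃ m : ℤ, v i = (m : ℂ)) ∧
    (V.card : ℝ) ^ (1 / 25 : ℝ) * bracket V r ≤ ((richLines V r).ncard : ℝ) := by
  -- T = U ^ 25
  obtain ⟨U, hU⟩ : ∃ U : ℕ, U = 384 * d + N := ⟨_, rfl⟩
  obtain ⟨T, hT⟩ : ∃ T : ℕ, T = U ^ 25 := ⟨_, rfl⟩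
  have hU2 : 2 ≤ U := by omega
  have hT2 : 2 ≤ T := by
    calc 2 ≤ U := hU2
      _ ≤ U ^ 25 := Nat.le_self_pow (by norm_num) U
      _ = T := hT.symm
  have hUT : U ≤ T := hT ▸ Nat.le_self_pow (by norm_num) U
  have hr : 2 ≤ T ^ 6 := by
    calc 2 ≤ T := hT2
      _ ≤ T ^ 6 := Nat.le_self_pow (by norm_num) T
  refine ⟨VV d (2 * T ^ 8), T ^ 6, ?_, hr, VV_int _, ?_⟩
  · rw [VV_card hd]
    calc N ≤ T := by omega
      _ ≤ T ^ 24 := Nat.le_self_pow (by norm_num) T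
      _ ≤ 8 * T ^ 24 := by omega
      _ = (2 * T ^ 8) ^ 3 := by ring
  · have h1 := bracket_le hd T (by omega)
    have h2 := many_rich hd T hT2
    have hTU : (T : ℝ) = (U : ℝ) ^ 25 := by rw [hT]; push_cast; rfl
    have hU0 : (0 : ℝ) < U := by exact_mod_cast (by omega : 0 < U)
    have hcard : (((VV d (2 * T ^ 8)).card : ℕ) : ℝ) = 8 * (T : ℝ) ^ 24 := by
      rw [VV_card hd]
      push_cast
      ring
    have hb0 : 0 ≤ bracket (VV d (2 * T ^ 8)) (T ^ 6) := by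
      unfold bracket
      positivity
    have hroot : (((VV d (2 * T ^ 8)).card : ℕ) : ℝ) ^ (1 / 25 : ℝ) ≤ 2 * (U : ℝ) ^ 24 := by
      rw [hcard, hTU]
      have : (8 : ℝ) * (((U : ℝ) ^ 25) ^ 24) ≤ (2 * (U : ℝ) ^ 24) ^ (25 : ℝ) := by
        have e : (2 * (U : ℝ) ^ 24) ^ (25 : ℝ) = (2 * (U : ℝ) ^ 24) ^ (25 : ℕ) := by
          rw [← Real.rpow_natCast]
          norm_num
        rw [e, mul_pow, ← pow_mul, ← pow_mul]
        have h600 : (0 : ℝ) ≤ (U : ℝ) ^ 600 := by positivity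
        norm_num
        exact mul_le_mul_of_nonneg_right (by norm_num) h600
      calc ((8 : ℝ) * (((U : ℝ) ^ 25) ^ 24)) ^ (1 / 25 : ℝ)
          ≤ ((2 * (U : ℝ) ^ 24) ^ (25 : ℝ)) ^ (1 / 25 : ℝ) :=
            Real.rpow_le_rpow (by positivity) this (by norm_num)
        _ = 2 * (U : ℝ) ^ 24 := by
            rw [← Real.rpow_mul (by positivity)]
            norm_num
    have h384 : 384 * (d : ℝ) ≤ U := by
      rw [hU]
      push_cast
      have : (0 : ℝ) ≤ N := Nat.cast_nonneg N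
      linarith
    calc (((VV d (2 * T ^ 8)).card : ℕ) : ℝ) ^ (1 / 25 : ℝ) *
          bracket (VV d (2 * T ^ 8)) (T ^ 6)
        ≤ (2 * (U : ℝ) ^ 24) * (64 * d * (T : ℝ) ^ 18) :=
          mul_le_mul hroot h1 hb0 (by positivity)
      _ = (384 * (d : ℝ)) * ((U : ℝ) ^ 24 * (T : ℝ) ^ 18) / 3 := by ring
      _ ≤ U * ((U : ℝ) ^ 24 * (T : ℝ) ^ 18) / 3 := by
          have : 0 ≤ (U : ℝ) ^ 24 * (T : ℝ) ^ 18 := by positivity
          have := mul_le_mul_of_nonneg_right h384 this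
          linarith
      _ = (T : ℝ) ^ 19 / 3 := by rw [hTU]; ring
      _ ≤ ((richLines (VV d (2 * T ^ 8)) (T ^ 6)).ncard : ℝ) := by linarith

/-- No constant works. -/
theorem no_const (hd : 4 ≤ d) : ¬ ∃ C : ℝ, ∀ (V : Finset (Fin d → ℂ)) (r : ℕ), 2 ≤ r →
    ((richLines V r).ncard : ℝ) ≤ C * bracket V r := by
  rintro ⟨C, hC⟩
  obtain ⟨T, hT⟩ := exists_nat_gt (192 * d * |C|)
  obtain ⟨T', hT'⟩ : ∃ T' : ℕ, T' = T + 2 := ⟨_, rfl⟩
  have h1 := bracket_le hd T' (by omega)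
  have h2 := many_rich hd T' (by omega)
  have h3 := hC (VV d (2 * T' ^ 8)) (T' ^ 6) (by
    calc 2 ≤ T' := by omega
      _ ≤ T' ^ 6 := Nat.le_self_pow (by norm_num) T')
  have hb0 : 0 ≤ bracket (VV d (2 * T' ^ 8)) (T' ^ 6) := by
    unfold bracket
    positivity
  have h4 : C * bracket (VV d (2 * T' ^ 8)) (T' ^ 6) ≤ |C| * (64 * d * (T' : ℝ) ^ 18) :=
    (mul_le_mul_of_nonneg_right (le_abs_self C) hb0).trans
      (mul_le_mul_of_nonneg_left h1 (abs_nonneg C))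
  have hT'1 : (0 : ℝ) < (T' : ℝ) := by exact_mod_cast (by omega : 0 < T')
  have hT'0 : (0 : ℝ) < (T' : ℝ) ^ 18 := by positivity
  have h5 : (T' : ℝ) ^ 19 ≤ (192 * d * |C|) * (T' : ℝ) ^ 18 := by
    calc (T' : ℝ) ^ 19 ≤ 3 * (|C| * (64 * d * (T' : ℝ) ^ 18)) := by linarith
      _ = (192 * d * |C|) * (T' : ℝ) ^ 18 := by ring
  have h6 : (T' : ℝ) ≤ 192 * d * |C| := by
    have : (T' : ℝ) * (T' : ℝ) ^ 18 ≤ (192 * d * |C|) * (T' : ℝ) ^ 18 := by
      calc (T' : ℝ) * (T' : ℝ) ^ 18 = (T' : ℝ) ^ 19 := by ring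
        _ ≤ _ := h5
    exact le_of_mul_le_mul_right this hT'0
  have h7 : (T : ℝ) ≤ T' := by rw [hT']; push_cast; linarith
  linarith

end Pool.Agent.N394.RL
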